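import Pool.Agent.H96gur.Final

set_option autoImplicit false

namespace Pool.Agent.Results.MP_9991fb_an.NonHomogeneous

/-- A normed space `X` is a strong Gurarii space (of universal disposition for
finite-dimensional spaces): every linear isometric embedding of a subspace `P` of a
finite-dimensional normed space `T` into `X` extends to a linear isometric embedding of `T`. -/
def StrongGurarii (X : Type) [NormedAddCommGroup X] [NormedSpace ℝ X] : Prop :=
  ∀ (T : Type) [NormedAddCommGroup T] [NormedSpace ℝ T] [FiniteDimensional ℝ T]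
    (P : Submodule ℝ T) (f : P →ₗᵢ[ℝ] X), ∃ g : T →ₗᵢ[ℝ] X, ∀ s : P, g s = f s

/-- Homogeneity for finite-dimensional spaces: every bijective linear isometry between
finite-dimensional subspaces of `X` extends to a surjective linear isometry of `X`. -/
def HomogeneousFD (X : Type) [NormedAddCommGroup X] [NormedSpace ℝ X] : Prop :=
  ∀ (E F : Submodule ℝ X), FiniteDimensional ℝ E → FiniteDimensional ℝ F →
    ∀ h : E ≃ₗᵢ[ℝ] F, ∃ g : X ≃ₗᵢ[ℝ] X, ∀ e : E, g e = h e

/-- There is a strong Gurarii Banach space which is not homogeneous for finite-dimensional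
spaces. -/
theorem result : ∃ (X : Type) (_ : NormedAddCommGroup X) (_ : NormedSpace ℝ X)
    (_ : CompleteSpace X), StrongGurarii X ∧ ¬ HomogeneousFD X := by
  obtain ⟨X, i1, i2, i3, h1, x, y, hx, hy, h2⟩ := Pool.Agent.H96gur.main.{0, 0} ℕ
  refine ⟨X, i1, i2, i3, ?_, ?_⟩
  · intro T _ _ _ P f
    have : ProperSpace T := FiniteDimensional.proper ℝ T
    exact h1 T ⟨TopologicalSpace.denseSeq T, TopologicalSpace.denseRange_denseSeq T⟩ P f
  · intro h
    let ex := LinearIsometryEquiv.toSpanUnitSingleton (𝕜 := ℝ) x hx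
    let ey := LinearIsometryEquiv.toSpanUnitSingleton (𝕜 := ℝ) y hy
    obtain ⟨g, hg⟩ := h (ℝ ∙ x) (ℝ ∙ y) inferInstance inferInstance (ex.symm.trans ey)
    apply h2 g
    have h3 := hg (ex 1)
    have h4 : ((ex 1 : (ℝ ∙ x)) : X) = x := by simp [ex]
    have h5 : (((ex.symm.trans ey) (ex 1) : (ℝ ∙ y)) : X) = y := by simp [ey]
    rw [h4, h5] at h3
    exact h3

end Pool.Agent.Results.MP_9991fb_an.NonHomogeneous
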